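import Mathlib
import Pool.Agent.TH69.MsS0

set_option autoImplicit false

/-!
# Bounded series of characteristic subgroups: monotonicity, extension, composition
-/

namespace Pool.Agent.TH69.Ms.X

theorem LSS.map_inj {A B : Type} [Group A] [Group B] (f : A →* B) (hf : Function.Injective f)
    {M : Subgroup A} (h : LSS M) : LSS (M.map f) := by
  classical
  obtain ⟨c, hc, h⟩ := h
  refine ⟨c, hc, fun s hs => ?_⟩
  have ht : ∀ x : A, x ∈ s.preimage f hf.injOn ↔ f x ∈ s := fun x => Finset.mem_preimage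
  obtain ⟨D, h1, h2, h3, h4⟩ := h (s.preimage f hf.injOn) (by
    intro x hx
    have hx' := (ht x).1 (by exact_mod_cast hx)
    obtain ⟨y, hy, hyx⟩ := hs hx'
    have : y = x := hf hyx
    rw [← this]
    exact hy)
  refine ⟨(fun T : Subgroup A => T.map f) '' D, h1.image _, ?_, ?_, ?_⟩
  · rintro _ ⟨T, hT, rfl⟩
    obtain ⟨h5, h6, h7, h8⟩ := h2 T hT
    have e := T.equivMapOfInjective f hf
    refine ⟨Subgroup.map_mono h5, ?_, ?_, ?_⟩
    · rw [← h6]
      exact (Nat.card_congr e.toEquiv).symm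
    · exact MulEquiv.isSimpleGroup e.symm
    · obtain ⟨a, b, hab⟩ := h8
      refine ⟨e a, e b, fun hh => hab ?_⟩
      rw [← map_mul, ← map_mul] at hh
      exact e.injective hh
  · rintro _ ⟨A', hA, rfl⟩ _ ⟨B', hB, rfl⟩ hne _ ⟨a, ha, rfl⟩ _ ⟨b, hb, rfl⟩
    have h5 := h3 A' hA B' hB (fun h => hne (by rw [h])) a ha b hb
    rw [← map_mul, ← map_mul, h5]
  · intro x hx
    obtain ⟨y, hy, hyx⟩ := hs hx
    have h5 : sSup D ≤ (sSup ((fun T : Subgroup A => T.map f) '' D)).comap f := by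
      refine sSup_le fun T hT => ?_
      rw [← Subgroup.map_le_iff_le_comap]
      exact le_sSup ⟨T, hT, rfl⟩
    have h6 : y ∈ (s.preimage f hf.injOn : Set A) := by
      have : f y ∈ s := by rw [hyx]; exact hx
      exact_mod_cast (ht y).2 this
    have h7 := h5 (h4 h6)
    rw [← hyx]
    exact h7

theorem char_comap {G W : Type} [Group G] [Group W] (g : G →* W) (hg : Function.Surjective g)
    (hk : g.ker.Characteristic) (B : Subgroup W) (hB : B.Characteristic) :
    (B.comap g).Characteristic := by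
  have key : ∀ φ : G ≃* G, ∃ ψ : W →* W, ∀ x, ψ (g x) = g (φ x) := by
    intro φ
    have h1 : g.ker ≤ (g.comp φ.toMonoidHom).ker := by
      intro x hx
      exact Subgroup.characteristic_iff_le_comap.1 hk φ hx
    refine ⟨g.liftOfSurjective hg ⟨g.comp φ.toMonoidHom, h1⟩, fun x => ?_⟩
    exact MonoidHom.liftOfRightInverse_comp_apply g _ (Function.rightInverse_surjInv hg) ⟨_, h1⟩ x
  rw [Subgroup.characteristic_iff_le_comap]
  intro φ x hx
  obtain ⟨ψ, hψ⟩ := key φ
  obtain ⟨ψ', hψ'⟩ := key φ.symm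
  let e : W ≃* W := MonoidHom.toMulEquiv ψ ψ'
    (by ext w; obtain ⟨y, rfl⟩ := hg w; simp [hψ, hψ'])
    (by ext w; obtain ⟨y, rfl⟩ := hg w; simp [hψ, hψ'])
  have h2 : e (g x) ∈ B := Subgroup.characteristic_iff_le_comap.1 hB e hx
  have h3 : e (g x) = g (φ x) := hψ x
  rw [h3] at h2
  exact h2

theorem char_map {G : Type} [Group G] (R : Subgroup G) (hR : R.Characteristic) (M : Subgroup R)
    (hM : M.Characteristic) : (M.map R.subtype).Characteristic := by
  rw [Subgroup.characteristic_iff_map_le]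
  rintro φ _ ⟨_, ⟨x, hx, rfl⟩, rfl⟩
  have h1 : R.map φ.toMonoidHom = R := Subgroup.characteristic_iff_map_eq.1 hR φ
  let ψ : R ≃* R := (φ.subgroupMap R).trans (MulEquiv.subgroupCongr h1)
  have h2 := Subgroup.characteristic_iff_map_le.1 hM ψ (Subgroup.mem_map_of_mem _ hx)
  exact ⟨ψ x, h2, rfl⟩

theorem TTq.comap {n : ℕ} {G W : Type} [Group G] [Group W] (g : G →* W)
    (hg : Function.Surjective g) {A B : Subgroup W} (h : TTq n A B) :
    TTq n (A.comap g) (B.comap g) := by
  rcases h with ⟨p, a, hp, ha, h⟩ | ⟨Q, _, f, hf, hfk, h⟩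
  · refine Or.inl ⟨p, a, hp, ha, fun x hx => ?_⟩
    show g (x ^ p ^ a) ∈ A
    rw [map_pow]
    exact h _ hx
  · refine Or.inr ⟨Q, _, f.comp g, hf.comp hg, ?_, ?_⟩
    · rw [← hfk]
      ext x
      simp [MonoidHom.mem_ker]
    · rw [← Subgroup.map_map, Subgroup.map_comap_eq_self_of_surjective hg]
      exact h

theorem CS.mono {n l l' : ℕ} (h : l ≤ l') {G : Type} [Group G] (hG : CS n l G) : CS n l' G := by
  obtain ⟨M, h0, hl, hc, hs⟩ := hG
  refine ⟨fun i => M (min i l), ?_, ?_, fun i => hc _, fun i hi => ?_⟩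
  · show M (min 0 l) = ⊥
    rw [Nat.zero_min, h0]
  · show M (min l' l) = ⊤
    rw [min_eq_right h, hl]
  · show M (min i l) ≤ M (min (i + 1) l) ∧ TTq n (M (min i l)) (M (min (i + 1) l))
    rcases lt_or_ge i l with h1 | h1
    · rw [min_eq_left h1.le, min_eq_left (by omega : i + 1 ≤ l)]
      exact hs i h1
    · rw [min_eq_right h1, min_eq_right (by omega : l ≤ i + 1), hl]
      exact ⟨le_rfl, Or.inl ⟨2, 0, Nat.prime_two, by simp, fun x _ => Subgroup.mem_top _⟩⟩

theorem CS.cons {n b : ℕ} {G W : Type} [Group G] [Group W] (M : Subgroup G) (hM : M.Characteristic)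
    (hT : TT n M) (g : G →* W) (hg : Function.Surjective g) (hk : g.ker = M) (hW : CS n b W) :
    CS n (b + 1) G := by
  obtain ⟨M2, h0, hl, hc, hs⟩ := hW
  refine ⟨fun i => Nat.casesOn i ⊥ (fun j => (M2 j).comap g), rfl, ?_, ?_, ?_⟩
  · show (M2 b).comap g = ⊤
    rw [hl, Subgroup.comap_top]
  · intro i
    rcases i with _ | j
    · show (⊥ : Subgroup G).Characteristic
      infer_instance
    · exact char_comap g hg (by rw [hk]; exact hM) _ (hc j)
  · intro i hi
    rcases i with _ | j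
    · show (⊥ : Subgroup G) ≤ (M2 0).comap g ∧ TTq n ⊥ ((M2 0).comap g)
      have e1 : (M2 0).comap g = M := by rw [h0, ← hk]; rfl
      rw [e1]
      refine ⟨bot_le, ?_⟩
      rcases hT with ⟨p, a, hp, ha, h⟩ | h
      · exact Or.inl ⟨p, a, hp, ha, fun x hx => by rw [h x hx]; exact Subgroup.one_mem _⟩
      · refine Or.inr ⟨G, _, MonoidHom.id G, Function.surjective_id, ?_, ?_⟩
        · ext x
          simp [MonoidHom.mem_ker]
        · rw [Subgroup.map_id]
          exact h
    · show (M2 j).comap g ≤ (M2 (j + 1)).comap g ∧ TTq n ((M2 j).comap g) ((M2 (j + 1)).comap g)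
      obtain ⟨h1, h2⟩ := hs j (by omega)
      exact ⟨Subgroup.comap_mono h1, h2.comap g hg⟩

theorem TTq.map {n : ℕ} {G : Type} [Group G] (R : Subgroup G) {A B : Subgroup R}
    (hA : (A.map R.subtype).Normal) (h : TTq n A B) :
    TTq n (A.map R.subtype) (B.map R.subtype) := by
  rcases h with ⟨p, a, hp, ha, h⟩ | ⟨Q, _, f, hf, hfk, h⟩
  · refine Or.inl ⟨p, a, hp, ha, ?_⟩
    rintro _ ⟨x, hx, rfl⟩
    exact ⟨x ^ p ^ a, h x hx, rfl⟩
  · have hle : f.ker ≤ ((QuotientGroup.mk' (A.map R.subtype)).comp R.subtype).ker := by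
      intro x hx
      rw [MonoidHom.mem_ker]
      show QuotientGroup.mk' (A.map R.subtype) (R.subtype x) = 1
      rw [← MonoidHom.mem_ker, QuotientGroup.ker_mk']
      refine ⟨x, ?_, rfl⟩
      rw [hfk] at hx
      exact hx
    obtain ⟨j, hj⟩ : ∃ j : Q →* G ⧸ A.map R.subtype,
        ∀ x, j (f x) = QuotientGroup.mk' (A.map R.subtype) (R.subtype x) :=
      ⟨f.liftOfSurjective hf ⟨_, hle⟩, fun x =>
        MonoidHom.liftOfRightInverse_comp_apply f _ (Function.rightInverse_surjInv hf) ⟨_, hle⟩ x⟩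
    have hji : Function.Injective j := by
      rw [injective_iff_map_eq_one]
      intro q hq
      obtain ⟨x, rfl⟩ := hf q
      rw [hj, ← MonoidHom.mem_ker, QuotientGroup.ker_mk'] at hq
      obtain ⟨y, hy, hyx⟩ := hq
      have : y = x := R.subtype_injective hyx
      rw [← this, ← MonoidHom.mem_ker, hfk]
      exact hy
    refine Or.inr ⟨G ⧸ A.map R.subtype, _, QuotientGroup.mk' (A.map R.subtype),
      QuotientGroup.mk'_surjective _, QuotientGroup.ker_mk' _, ?_⟩
    have e : (B.map R.subtype).map (QuotientGroup.mk' (A.map R.subtype)) = (B.map f).map j := by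
      rw [Subgroup.map_map, Subgroup.map_map]
      congr 1
      ext x
      exact (hj x).symm
    rw [e]
    exact LSS.map_inj j hji h

theorem CS.comp {n a b : ℕ} {G W : Type} [Group G] [Group W] (R : Subgroup G)
    (hR : R.Characteristic) (hRS : CS n a R) (g : G →* W) (hg : Function.Surjective g)
    (hk : g.ker = R) (hW : CS n b W) : CS n (a + b) G := by
  obtain ⟨M1, p0, pl, pc, ps⟩ := hRS
  obtain ⟨M2, h0, hl, hc, hs⟩ := hW
  have hmid : (M1 a).map R.subtype = (M2 0).comap g := by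
    rw [pl, h0, ← MonoidHom.range_eq_map, Subgroup.range_subtype, ← hk]
    rfl
  obtain ⟨M, hM⟩ : ∃ M : ℕ → Subgroup G, ∀ i, M i =
      if i ≤ a then (M1 i).map R.subtype else (M2 (i - a)).comap g := ⟨_, fun _ => rfl⟩
  have m1 : ∀ i, i ≤ a → M i = (M1 i).map R.subtype := fun i hi => by rw [hM, if_pos hi]
  have m2 : ∀ i, a ≤ i → M i = (M2 (i - a)).comap g := by
    intro i hi
    rcases hi.eq_or_lt with h | h
    · rw [← h, m1 a le_rfl, Nat.sub_self, hmid]
    · rw [hM, if_neg (by omega)]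
  refine ⟨M, ?_, ?_, fun i => ?_, fun i hi => ?_⟩
  · rw [m1 0 (Nat.zero_le _), p0, Subgroup.map_bot]
  · rw [m2 (a + b) (by omega), Nat.add_sub_cancel_left, hl, Subgroup.comap_top]
  · rcases le_or_gt i a with h | h
    · rw [m1 i h]
      exact char_map R hR _ (pc i)
    · rw [m2 i h.le]
      exact char_comap g hg (by rw [hk]; exact hR) _ (hc _)
  · rcases lt_or_ge i a with h | h
    · rw [m1 i h.le, m1 (i + 1) h]
      obtain ⟨h1, h2⟩ := ps i h
      have := char_map R hR _ (pc i)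
      exact ⟨Subgroup.map_mono h1, h2.map R inferInstance⟩
    · rw [m2 i h, m2 (i + 1) (by omega), (by omega : i + 1 - a = (i - a) + 1)]
      obtain ⟨h1, h2⟩ := hs (i - a) (by omega)
      exact ⟨Subgroup.comap_mono h1, h2.comap g hg⟩

end Pool.Agent.TH69.Ms.X
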